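import Pool.Agent.TH162.FC.Vis

/-!
# Quasisymmetric embeddings of boundaries in spheres and finite configurations

Let `G` be a nonelementary hyperbolic group. Its action on the boundary `X` is a convergence action
which is cocompact on triples of distinct points, and it is uniformly quasi-Moebius for a visual
metric. The theorem says that `X` has a quasi-Moebius (equivalently, quasisymmetric) embedding in
the sphere `S^n` if and only if the cross ratios of the images of the finite sets of points of one
nonempty open set, under suitable injective maps of these finite sets to `S^n`, are bounded.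
-/

set_option autoImplicit false

open Filter Topology Set Pool.Agent.TH289.C Pool.Agent.TH162.FC

namespace Pool.Agent.Results.MP_e1e491_gt.FiniteConfigurations

theorem result {G : Type} [Group G] {X : Type} [MetricSpace X] [CompactSpace X]
    (hX : ∀ x : X, (𝓝[≠] x).NeBot) (α : Action G X) (hα : Converges α) (hco : TripleCocompact α)
    (n : ℕ) (U : Set X) (hU : IsOpen U) (hne : U.Nonempty) :
    (FinitelyBounded α U n ↔ UniformlyQuasiMoebiusEmbeds α n) ∧
    (UniformlyQuasiMoebius α → (FinitelyBounded α U n ↔ QuasiMoebiusEmbeds X n)) := by
  have h1 : FinitelyBounded α U n → UniformlyQuasiMoebiusEmbeds α n := by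
    rintro ⟨N, hN⟩
    exact embeds_of_local (α := α.hom) (E := Euc n) hX hα hco hU hne (N := N) hN
  refine ⟨⟨h1, fun h => local_of_embeds (α := α.hom) (E := Euc n) U h⟩, fun hself => ?_⟩
  exact ⟨fun h => qm_of_uqm hco hself (h1 h), fun h => fin_of_qm hself U h⟩

end Pool.Agent.Results.MP_e1e491_gt.FiniteConfigurations
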